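import Mathlib

set_option autoImplicit false

namespace Pool.Agent.Results.MP_77b5a8_co.ANeverEqual

open Metric

/-- the Euclidean plane -/
abbrev Plane := EuclideanSpace ℝ (Fin 2)

/-- `Q` is a closed square of side `s` in any position: the image of `[0,s]²` under an isometry
of the plane. -/
def IsSquare (s : ℝ) (Q : Set Plane) : Prop :=
  ∃ φ : Plane ≃ᵢ Plane, Q = φ '' {x : Plane | ∀ i, 0 ≤ x i ∧ x i ≤ s}

/-- some square of side `s` contains `n` closed unit discs with pairwise disjoint interiors -/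
def Fits (n : ℕ) (s : ℝ) : Prop :=
  ∃ Q : Set Plane, IsSquare s Q ∧ ∃ c : Fin n → Plane,
    (∀ i, closedBall (c i) 1 ⊆ Q) ∧
    ∀ i j, i ≠ j → Disjoint (interior (closedBall (c i) 1)) (interior (closedBall (c j) 1))

/-- `s_n`: the least side length of a square that contains `n` nonoverlapping unit discs -/
noncomputable def minSide (n : ℕ) : ℝ := sInf {s : ℝ | Fits n s}

/-- `F(s) = s² - (3 + √3) s + 2 + 2√3` -/
noncomputable def F (s : ℝ) : ℝ := s ^ 2 - (3 + √3) * s + 2 + 2 * √3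

lemma exists_pts (A b n : ℕ) (h : 2 * (n - 1) < A * b) :
    ∃ f : Fin n → ℕ × ℕ, (∀ k, (f k).1 < A ∧ (f k).2 < b ∧ ((f k).1 + (f k).2) % 2 = 0) ∧
      Function.Injective f := by
  have hA : 0 < A := by
    rcases Nat.eq_zero_or_pos A with h0 | h0
    · simp [h0] at h
    · exact h0
  have key : ∀ t : ℕ, t % 2 = 0 →
      (t % A + (t % A + t / A) % 2 < A) ∧ (A % 2 = 1 → (t % A + t / A) % 2 = 0) ∧
        (A % 2 = 0 → (t % A) % 2 = 0) := by
    intro t ht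
    have h1 := Nat.div_add_mod t A
    have h2 := Nat.mod_lt t hA
    generalize t / A = j at *
    generalize t % A = i at *
    rcases Nat.even_or_odd' A with ⟨r, hr | hr⟩
    · have : A * j = 2 * (r * j) := by rw [hr]; ring
      omega
    · have : A * j = 2 * (r * j) + j := by rw [hr]; ring
      omega
  refine ⟨fun k => ((2 * k) % A + ((2 * k) % A + (2 * k) / A) % 2, (2 * k) / A), ?_, ?_⟩
  · intro k
    have hk := k.2
    refine ⟨(key (2 * k) (by omega)).1, ?_, ?_⟩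
    · apply Nat.div_lt_of_lt_mul
      omega
    · simp only
      omega
  · intro k l hkl
    simp only [Prod.mk.injEq] at hkl
    obtain ⟨h1, h2⟩ := hkl
    have a1 := key (2 * k) (by omega)
    have a2 := key (2 * l) (by omega)
    have b1 := Nat.div_add_mod (2 * (k : ℕ)) A
    have b2 := Nat.div_add_mod (2 * (l : ℕ)) A
    rw [h2] at b1 h1 a1
    apply Fin.ext
    omega

lemma coord_le (x c : Plane) (h : x ∈ closedBall c 1) (i : Fin 2) : |x i - c i| ≤ 1 := by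
  have h1 : dist (x i) (c i) ≤ dist x c := PiLp.dist_apply_le x c i
  rw [Real.dist_eq] at h1
  exact h1.trans (mem_closedBall.1 h)

lemma two_le {n : ℕ} (hn : 0 < n) {s : ℝ} (h : Fits n s) : 2 ≤ s := by
  obtain ⟨Q, ⟨φ, rfl⟩, c, hc, -⟩ := h
  have h0 := hc ⟨0, hn⟩
  set p := φ.symm (c ⟨0, hn⟩) with hp
  have hmem : ∀ x : Plane, dist x p ≤ 1 → ∀ i, 0 ≤ x i ∧ x i ≤ s := by
    intro x hx
    have : φ x ∈ closedBall (c ⟨0, hn⟩) 1 := by
      rw [mem_closedBall, ← φ.apply_symm_apply (c ⟨0, hn⟩), φ.dist_eq]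
      exact hx
    obtain ⟨y, hy, hxy⟩ := h0 this
    have := φ.injective hxy
    subst this
    exact hy
  have e1 := (hmem (p + EuclideanSpace.single 0 1) (by simp [dist_eq_norm]) 0).2
  have e2 := (hmem (p - EuclideanSpace.single 0 1) (by simp [dist_eq_norm]) 0).1
  simp at e1 e2
  linarith

lemma fits {n : ℕ} (hn : 0 < n) {m : ℝ} (hm : 0 ≤ m) (h : √12 * ((n : ℝ) - 1) ≤ m ^ 2) :
    Fits n (m + 2) := by
  have h3 : (0 : ℝ) < √3 := by positivity
  have h33 : √3 * √3 = (3 : ℝ) := Real.mul_self_sqrt (by norm_num)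
  have h12 : √12 = 2 * √3 := by
    rw [show (12 : ℝ) = 2 ^ 2 * 3 by norm_num, Real.sqrt_mul (by norm_num), Real.sqrt_sq (by norm_num)]
  have hA : m < ((⌊m⌋₊ + 1 : ℕ) : ℝ) := by push_cast; exact Nat.lt_floor_add_one m
  have hb : m / √3 < ((⌊m / √3⌋₊ + 1 : ℕ) : ℝ) := by push_cast; exact Nat.lt_floor_add_one _
  have hcount : 2 * (n - 1) < (⌊m⌋₊ + 1) * (⌊m / √3⌋₊ + 1) := by
    have h1 : m * (m / √3) < ((⌊m⌋₊ + 1 : ℕ) : ℝ) * ((⌊m / √3⌋₊ + 1 : ℕ) : ℝ) :=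
      mul_lt_mul'' hA hb hm (by positivity)
    have h2 : 2 * ((n : ℝ) - 1) ≤ m * (m / √3) := by
      rw [← mul_div_assoc, le_div_iff₀ h3]
      rw [h12] at h
      nlinarith
    have h4 : ((2 * (n - 1) : ℕ) : ℝ) = 2 * ((n : ℝ) - 1) := by
      rw [Nat.cast_mul, Nat.cast_sub hn]; simp
    have h5 : ((2 * (n - 1) : ℕ) : ℝ) < (((⌊m⌋₊ + 1) * (⌊m / √3⌋₊ + 1) : ℕ) : ℝ) := by
      rw [h4, Nat.cast_mul]; linarith
    exact_mod_cast h5
  obtain ⟨f, hf, hinj⟩ := exists_pts _ _ n hcount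
  refine ⟨_, ⟨IsometryEquiv.refl _, rfl⟩,
    fun k => !₂[1 + ((f k).1 : ℝ), 1 + √3 * ((f k).2 : ℝ)], ?_, ?_⟩
  · intro k x hx
    refine ⟨x, ?_, rfl⟩
    obtain ⟨h1, h2, -⟩ := hf k
    have g1 : ((f k).1 : ℝ) ≤ m :=
      (Nat.cast_le.2 (Nat.lt_succ_iff.1 h1)).trans (Nat.floor_le hm)
    have g2 : ((f k).2 : ℝ) ≤ m / √3 :=
      (Nat.cast_le.2 (Nat.lt_succ_iff.1 h2)).trans (Nat.floor_le (by positivity))
    have g3 : √3 * ((f k).2 : ℝ) ≤ m := by
      rw [le_div_iff₀ h3] at g2; linarith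
    have g4 : (0 : ℝ) ≤ ((f k).1 : ℝ) := Nat.cast_nonneg _
    have g5 : (0 : ℝ) ≤ √3 * ((f k).2 : ℝ) := by positivity
    intro i
    have hi := abs_le.1 (coord_le x _ hx i)
    fin_cases i
    · simp at hi ⊢
      constructor <;> linarith [hi.1, hi.2]
    · simp at hi ⊢
      constructor <;> linarith [hi.1, hi.2]
  · intro k l hkl
    rw [interior_closedBall _ one_ne_zero, interior_closedBall _ one_ne_zero]
    apply ball_disjoint_ball
    rw [EuclideanSpace.dist_eq]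
    apply Real.le_sqrt_of_sq_le
    simp only [Fin.sum_univ_two, Real.dist_eq, sq_abs]
    simp only [Matrix.cons_val_zero, Matrix.cons_val_one, Matrix.cons_val_fin_one]
    have hne : f k ≠ f l := fun e => hkl (hinj e)
    have p1 := (hf k).2.2
    have p2 := (hf l).2.2
    have hint : (4 : ℤ) ≤ (((f k).1 : ℤ) - (f l).1) ^ 2 + 3 * (((f k).2 : ℤ) - (f l).2) ^ 2 := by
      have hne' : (f k).1 ≠ (f l).1 ∨ (f k).2 ≠ (f l).2 := by
        by_contra hcon
        push Not at hcon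
        exact hne (Prod.ext hcon.1 hcon.2)
      obtain ⟨u, hu⟩ : ∃ u : ℤ, u = ((f k).1 : ℤ) - (f l).1 := ⟨_, rfl⟩
      obtain ⟨v, hv⟩ : ∃ v : ℤ, v = ((f k).2 : ℤ) - (f l).2 := ⟨_, rfl⟩
      rw [← hu, ← hv]
      have hc : (v = 0 ∧ (2 ≤ u ∨ u ≤ -2)) ∨ ((v = 1 ∨ v = -1) ∧ (1 ≤ u ∨ u ≤ -1)) ∨
          (2 ≤ v ∨ v ≤ -2) := by omega
      rcases hc with ⟨h1, h2 | h2⟩ | ⟨h1 | h1, h2 | h2⟩ | h1 | h1 <;> nlinarith [sq_nonneg u]
    have hreal : (4 : ℝ) ≤ (((f k).1 : ℝ) - (f l).1) ^ 2 + 3 * (((f k).2 : ℝ) - (f l).2) ^ 2 := by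
      exact_mod_cast hint
    have e : (1 + √3 * ((f k).2 : ℝ) - (1 + √3 * ((f l).2 : ℝ))) ^ 2
        = 3 * (((f k).2 : ℝ) - (f l).2) ^ 2 := by
      have : (1 + √3 * ((f k).2 : ℝ) - (1 + √3 * ((f l).2 : ℝ))) ^ 2
        = (√3 * √3) * (((f k).2 : ℝ) - (f l).2) ^ 2 := by ring
      rw [this, h33]
    rw [e]
    nlinarith

/-- For every positive integer `n` we have `√12 n ≥ F(s_n) + √12`; so `√12 n = F(s_n)` holds for
no positive integer `n`. -/
theorem result (n : ℕ) (hn : 0 < n) : F (minSide n) + √12 ≤ √12 * (n : ℝ) := by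
  have hn1 : (1 : ℝ) ≤ n := by exact_mod_cast hn
  have hq : 0 ≤ √12 * ((n : ℝ) - 1) := mul_nonneg (Real.sqrt_nonneg _) (by linarith)
  have hm : 0 ≤ √(√12 * ((n : ℝ) - 1)) := Real.sqrt_nonneg _
  have hsq := Real.sq_sqrt hq
  have hfit := fits hn hm hsq.ge
  have hlow : 2 ≤ minSide n := le_csInf ⟨_, hfit⟩ fun s hs => two_le hn hs
  have hup : minSide n ≤ √(√12 * ((n : ℝ) - 1)) + 2 :=
    csInf_le ⟨2, fun s hs => two_le hn hs⟩ hfit
  have h3 : (1 : ℝ) ≤ √3 := Real.one_le_sqrt.2 (by norm_num)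
  have hF : F (minSide n) = (minSide n - 2) ^ 2 - (√3 - 1) * (minSide n - 2) := by
    unfold F; ring
  have h1 : (minSide n - 2) ^ 2 ≤ √(√12 * ((n : ℝ) - 1)) ^ 2 :=
    pow_le_pow_left₀ (by linarith) (by linarith) 2
  have h2 : 0 ≤ (√3 - 1) * (minSide n - 2) := mul_nonneg (by linarith) (by linarith)
  rw [hF]
  linarith

end Pool.Agent.Results.MP_77b5a8_co.ANeverEqual
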